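import Pool.Agent.Q170.Panel.Main

/-!
# Cutting a paneled convex polyhedron along a matching does not change its motions

At an endpoint `v` of a cut edge all the other edges through `v` are still hinges.  Walking around
`v` (the complement of a ray in the plane is connected) one passes from one of the two panels at the
cut edge to the other one through hinges containing `v`, so the two panels still share `v`, and in
the same way the other endpoint, in every motion.
-/

set_option autoImplicit false

namespace Pool.Agent.Results.MP_e0197a_co.CutAlongMatching

open Pool.Agent.Q170.Panel

/-- The paneled polyhedron cut along a matching has the same motions as the paneled polyhedron with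
all hinges; in particular it is rigid if and only if the latter is. -/
theorem result {I : Type} [Finite I] (n : I → E) (b : I → ℝ) (hP : IsPolyhedron n b)
    (M : Set (Set E)) (hM : IsMatching n b M) :
    (∀ g, IsMotion n b M g ↔ IsMotion n b ∅ g) ∧ (Rigid n b M ↔ Rigid n b ∅) := by
  have h := motion_iff hP hM
  refine ⟨h, ?_⟩
  constructor
  · intro hr g hg
    exact hr g ((h g).2 hg)
  · intro hr g hg
    exact hr g ((h g).1 hg)

end Pool.Agent.Results.MP_e0197a_co.CutAlongMatching
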